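import Pool.Agent.Helper37.ETC.Defs

/-!
# ETC-KD2: in a V-topology an element is power bounded or has a topologically nilpotent inverse
-/

set_option autoImplicit false

namespace Pool.Helper37.ETC

variable {F : Type*} [Field F]

namespace KD2

lemma bd_mono {𝒩 : Filter F} {S T : Set F} (h : Bd 𝒩 T) (hST : S ⊆ T) : Bd 𝒩 S := by
  intro U hU
  obtain ⟨W, hW, h'⟩ := h U hU
  exact ⟨W, hW, fun s hs x hx => h' s (hST hs) x hx⟩

lemma bd_union {𝒩 : Filter F} {S T : Set F} (h : Bd 𝒩 S) (h' : Bd 𝒩 T) : Bd 𝒩 (S ∪ T) := by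
  intro U hU
  obtain ⟨W, hW, h1⟩ := h U hU
  obtain ⟨W', hW', h2⟩ := h' U hU
  refine ⟨W ∩ W', Filter.inter_mem hW hW', ?_⟩
  rintro s (hs | hs) x hx
  · exact h1 s hs x hx.1
  · exact h2 s hs x hx.2

lemma bd_singleton {𝒩 : Filter F} (h : VNhd 𝒩) (a : F) : Bd 𝒩 {a} := by
  intro U hU
  refine ⟨_, h.smul U hU a, ?_⟩
  rintro s hs x hx
  rw [Set.mem_singleton_iff.1 hs]
  exact hx

/-- far sets are bounded. -/
lemma bd_far {𝒩 : Filter F} (h : VNhd 𝒩) {U : Set F} (hU : U ∈ 𝒩) :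
    Bd 𝒩 {x : F | x⁻¹ ∉ U} := by
  intro U' hU'
  obtain ⟨W, hW, hxy⟩ := h.vprop (U ∩ U') (Filter.inter_mem hU hU')
  refine ⟨W, hW, fun s hs w hw => ?_⟩
  have hs0 : s ≠ 0 := by
    rintro rfl
    apply hs
    rw [inv_zero]
    exact h.zero_mem U hU
  rcases hxy (s * w) s⁻¹ (by rwa [mul_comm s w, mul_assoc, mul_inv_cancel₀ hs0, mul_one]) with
    h1 | h1
  · exact h1.2
  · exact absurd h1.1 hs

lemma exists_bd_nhd {𝒩 : Filter F} (h : VNhd 𝒩) : ∃ U ∈ 𝒩, Bd 𝒩 U := by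
  obtain ⟨U1, hU1, h1⟩ := h.proper
  obtain ⟨W, hW, hWW⟩ := h.mul U1 hU1
  refine ⟨W, hW, bd_mono (bd_union (bd_singleton h 0) (bd_far h hW)) ?_⟩
  intro x hx
  by_cases hx0 : x = 0
  · left; exact hx0
  · right
    intro hxi
    apply h1
    have := hWW x hx x⁻¹ hxi
    rwa [mul_inv_cancel₀ hx0] at this

/-- a neighbourhood of power bounded elements -/
lemma exists_pbd_nhd {𝒩 : Filter F} (h : VNhd 𝒩) : ∃ W ∈ 𝒩, ∀ y ∈ W, PBd 𝒩 y := by
  obtain ⟨U0, hU0, hb⟩ := exists_bd_nhd h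
  obtain ⟨W, hW, hWU⟩ := hb U0 hU0
  refine ⟨W ∩ U0, Filter.inter_mem hW hU0, fun y hy => ?_⟩
  refine bd_mono (bd_union (bd_singleton h 1) hb) ?_
  rintro _ ⟨n, rfl⟩
  rcases n with _ | n
  · left; simp
  · right
    show y ^ (n + 1) ∈ U0
    induction n with
    | zero => simpa using hy.2
    | succ n ih =>
      rw [pow_succ]
      exact hWU _ ih y hy.1

lemma pbd_of_pow {𝒩 : Filter F} (h : VNhd 𝒩) {y : F} {m : ℕ} (hm : 0 < m)
    (hy : PBd 𝒩 (y ^ m)) : PBd 𝒩 y := by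
  intro U hU
  obtain ⟨V, hV, hVU⟩ := hy U hU
  refine ⟨⋂ r ∈ Finset.range m, {w | y ^ r * w ∈ V}, ?_, ?_⟩
  · rw [Filter.biInter_finset_mem]
    intro r _
    exact h.smul V hV (y ^ r)
  · rintro _ ⟨j, rfl⟩ w hw
    have h1 : y ^ (j % m) * w ∈ V := by
      have := Set.mem_iInter₂.1 hw (j % m) (Finset.mem_range.2 (Nat.mod_lt _ hm))
      exact this
    have h2 := hVU ((y ^ m) ^ (j / m)) ⟨j / m, rfl⟩ _ h1
    have h3 : y ^ j * w = (y ^ m) ^ (j / m) * (y ^ (j % m) * w) := by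
      rw [← mul_assoc, ← pow_mul, ← pow_add, Nat.div_add_mod]
    show y ^ j * w ∈ U
    rw [h3]
    exact h2

lemma tnil_of_pbd {𝒩 : Filter F} {y : F} (hy : PBd 𝒩 y)
    (h : ∀ U ∈ 𝒩, ∃ n : ℕ, y ^ n ∈ U) : TNil 𝒩 y := by
  intro U hU
  obtain ⟨W, hW, hWU⟩ := hy U hU
  obtain ⟨n, hn⟩ := h W hW
  refine ⟨n, fun j hj => ?_⟩
  have := hWU (y ^ (j - n)) ⟨j - n, rfl⟩ _ hn
  rwa [← pow_add, Nat.sub_add_cancel hj] at this

end KD2

open KD2 in
/-- KD2 -/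
theorem VNhd.dich {𝒩 : Filter F} (h : VNhd 𝒩) (x : F) (hx : x ≠ 0) :
    PBd 𝒩 x ∨ TNil 𝒩 x⁻¹ := by
  by_cases hp : PBd 𝒩 x
  · left; exact hp
  · right
    have key : ∀ U ∈ 𝒩, ∃ n : ℕ, (x⁻¹) ^ n ∈ U := by
      intro U hU
      by_contra hcon
      push Not at hcon
      apply hp
      refine bd_mono (bd_far h hU) ?_
      rintro _ ⟨n, rfl⟩
      have := hcon n
      rw [inv_pow] at this
      exact this
    obtain ⟨U1, hU1, h1⟩ := h.proper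
    obtain ⟨W, hW, hWp⟩ := exists_pbd_nhd h
    obtain ⟨n, hn⟩ := key (W ∩ U1) (Filter.inter_mem hW hU1)
    have hn0 : 0 < n := by
      rcases Nat.eq_zero_or_pos n with rfl | h0
      · exact absurd (by simpa using hn.2) h1
      · exact h0
    exact tnil_of_pbd (pbd_of_pow h hn0 (hWp _ hn.1)) key

end Pool.Helper37.ETC
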